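import Mathlib

/-!
# Forcing with finite injective sequences and invariant Borel sets of structures
-/

set_option autoImplicit false

open Set

namespace Pool.Agent.H71.NV

variable {D : Type}

/-- the entries of a list -/
def ent (t : List ℕ) (i : ℕ) : ℕ := t.getD i 0

/-- Borel codes -/
inductive Code (D : Type) [MeasurableSpace D] : Type
  | atom (l : List ℕ) (A : Set D) (hA : MeasurableSet A) : Code D
  | compl (b : Code D) : Code D
  | inter (b : ℕ → Code D) : Code D

variable [MeasurableSpace D]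

/-- the coded set -/
def eval : Code D → Set (List ℕ → D)
  | .atom l A _ => {x | x l ∈ A}
  | .compl b => (eval b)ᶜ
  | .inter b => ⋂ n, eval (b n)

/-- every Borel set has a code -/
theorem exists_code {X : Set (List ℕ → D)} (hX : MeasurableSet X) : ∃ b : Code D, eval b = X := by
  have h1 : (MeasurableSpace.pi : MeasurableSpace (List ℕ → D)) =
      MeasurableSpace.generateFrom {S | ∃ (l : List ℕ) (A : Set D), MeasurableSet A ∧
        S = {x | x l ∈ A}} := by
    refine le_antisymm ?_ ?_
    · refine iSup_le fun l => ?_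
      rintro S ⟨A, hA, rfl⟩
      exact MeasurableSpace.measurableSet_generateFrom ⟨l, A, hA, rfl⟩
    · refine MeasurableSpace.generateFrom_le ?_
      rintro S ⟨l, A, hA, rfl⟩
      exact measurable_pi_apply l hA
  rw [h1] at hX
  induction X, hX using MeasurableSpace.generateFrom_induction with
  | hC S hS _ =>
    obtain ⟨l, A, hA, rfl⟩ := hS
    exact ⟨.atom l A hA, rfl⟩
  | empty =>
    refine ⟨.atom [] ∅ MeasurableSet.empty, ?_⟩
    ext x
    exact Iff.rfl
  | compl S _ ih =>
    obtain ⟨b, rfl⟩ := ih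
    exact ⟨.compl b, rfl⟩
  | iUnion s _ ih =>
    choose b hb using ih
    refine ⟨.compl (.inter fun n => .compl (b n)), ?_⟩
    change (⋂ n, (eval (b n))ᶜ)ᶜ = _
    rw [compl_iInter]
    simp only [compl_compl, hb]

/-- forcing -/
def Fc (x : List ℕ → D) : Code D → List ℕ → Prop
  | .atom l A _, s => ∀ t : List ℕ, s <+: t → t.Nodup → (∀ i ∈ l, i < t.length) →
      x (l.map (ent t)) ∈ A
  | .compl b, s => ∀ t : List ℕ, s <+: t → t.Nodup → ¬ Fc x b t
  | .inter b, s => ∀ n, Fc x (b n) s

theorem Fc.mono {x : List ℕ → D} {b : Code D} : ∀ {s t : List ℕ}, Fc x b s → s <+: t →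
    Fc x b t := by
  induction b with
  | atom l A hA => exact fun h hst r hr => h r (hst.trans hr)
  | compl b _ => exact fun h hst r hr => h r (hst.trans hr)
  | inter b ih => exact fun h hst n => ih n (h n) hst

theorem ent_prefix {s t : List ℕ} (h : s <+: t) {i : ℕ} (hi : i < s.length) :
    ent t i = ent s i := by
  obtain ⟨r, rfl⟩ := h
  unfold ent
  rw [List.getD_append _ _ _ _ hi]

theorem Fc.stable {x : List ℕ → D} {b : Code D} : ∀ {s : List ℕ}, s.Nodup → ¬ Fc x b s →
    ∃ t, s <+: t ∧ t.Nodup ∧ Fc x (.compl b) t := by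
  induction b with
  | atom l A hA =>
    intro s hs h
    unfold Fc at h
    push Not at h
    obtain ⟨t, h1, h2, h3, h4⟩ := h
    refine ⟨t, h1, h2, fun r hr hrn h5 => h4 ?_⟩
    have h6 : l.map (ent t) = l.map (ent r) :=
      List.map_congr_left fun i hi => (ent_prefix hr (h3 i hi)).symm
    rw [h6]
    exact h5 r (List.prefix_refl r) hrn fun i hi => lt_of_lt_of_le (h3 i hi) hr.length_le
  | compl b _ =>
    intro s hs h
    unfold Fc at h
    push Not at h
    obtain ⟨t, h1, h2, h3⟩ := h
    exact ⟨t, h1, h2, fun r hr hrn h5 => h5 r (List.prefix_refl r) hrn (h3.mono hr)⟩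
  | inter b ih =>
    intro s hs h
    unfold Fc at h
    push Not at h
    obtain ⟨n, hn⟩ := h
    obtain ⟨t, h1, h2, h3⟩ := ih n hs hn
    exact ⟨t, h1, h2, fun r hr hrn h5 => h3 r hr hrn (h5 n)⟩

/-- the codes below a code -/
def cods : Code D → Set (Code D)
  | .atom l A hA => {.atom l A hA}
  | .compl b => insert (.compl b) (cods b)
  | .inter b => insert (.inter b) (⋃ n, cods (b n))

theorem self_cods (b : Code D) : b ∈ cods b := by
  cases b with
  | atom l A hA => exact rfl
  | compl b => exact mem_insert _ _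
  | inter b => exact mem_insert _ _

theorem cods_countable (b : Code D) : (cods b).Countable := by
  induction b with
  | atom l A hA => exact countable_singleton _
  | compl b ih => exact ih.insert _
  | inter b ih => exact (countable_iUnion ih).insert _

theorem cods_compl {b c : Code D} (h : .compl c ∈ cods b) : c ∈ cods b := by
  induction b with
  | atom l A hA => exact absurd h (by simp [cods])
  | compl b ih =>
    rcases h with h | h
    · injection h with h
      rw [h]
      exact Or.inr (self_cods _)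
    · exact Or.inr (ih h)
  | inter b ih =>
    rcases h with h | h
    · exact absurd h (by simp)
    · obtain ⟨n, hn⟩ := mem_iUnion.1 h
      exact Or.inr (mem_iUnion.2 ⟨n, ih n hn⟩)

theorem cods_inter {b : Code D} {c : ℕ → Code D} (h : .inter c ∈ cods b) (n : ℕ) :
    c n ∈ cods b := by
  induction b with
  | atom l A hA => exact absurd h (by simp [cods])
  | compl b ih =>
    rcases h with h | h
    · exact absurd h (by simp)
    · exact Or.inr (ih h)
  | inter b ih =>
    rcases h with h | h
    · injection h with h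
      rw [h]
      exact Or.inr (mem_iUnion.2 ⟨n, self_cods _⟩)
    · obtain ⟨m, hm⟩ := mem_iUnion.1 h
      exact Or.inr (mem_iUnion.2 ⟨m, ih m hm⟩)

/-- the first values of a map -/
def ini (g : ℕ → ℕ) (n : ℕ) : List ℕ := (List.range n).map g

theorem ini_prefix (g : ℕ → ℕ) {m n : ℕ} (h : m ≤ n) : ini g m <+: ini g n := by
  obtain ⟨k, rfl⟩ := Nat.exists_eq_add_of_le h
  refine ⟨(List.range k).map fun i => g (m + i), ?_⟩
  unfold ini
  rw [List.range_add, List.map_append, List.map_map]
  rfl

theorem ini_length (g : ℕ → ℕ) (n : ℕ) : (ini g n).length = n := by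
  unfold ini
  rw [List.length_map, List.length_range]

theorem ini_ent (g : ℕ → ℕ) {n i : ℕ} (h : i < n) : ent (ini g n) i = g i := by
  unfold ent ini
  rw [List.getD_eq_getElem _ _ (by rw [List.length_map, List.length_range]; exact h),
    List.getElem_map, List.getElem_range]

theorem ini_nodup {g : ℕ → ℕ} (hg : Function.Injective g) (n : ℕ) : (ini g n).Nodup :=
  List.nodup_range.map hg

theorem ini_of_prefix {g : ℕ → ℕ} {n : ℕ} {t : List ℕ} (h : t <+: ini g n) :
    t = ini g t.length := by
  have h1 : t.length ≤ n := by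
    have := h.length_le
    rwa [ini_length] at this
  exact List.prefix_of_prefix_length_le h (ini_prefix g h1) (by rw [ini_length]) |>.eq_of_length
    (by rw [ini_length])

/-- generic bijections -/
theorem exists_generic (S : ℕ → Set (List ℕ))
    (hS : ∀ n (s : List ℕ), s.Nodup → ∃ t, s <+: t ∧ t.Nodup ∧ t ∈ S n) (s : List ℕ)
    (hs : s.Nodup) : ∃ g : Equiv.Perm ℕ, s <+: ini g s.length ∧ ∀ n, ∃ m, ini g m ∈ S n := by
  classical
  have hstep : ∀ n (s : {s : List ℕ // s.Nodup}), ∃ t : {s : List ℕ // s.Nodup},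
      s.1 <+: t.1 ∧ n ∈ t.1 ∧ ∃ r : List ℕ, r <+: t.1 ∧ r ∈ S n := by
    rintro n ⟨s, hs⟩
    obtain ⟨t, h1, h2, h3⟩ := hS n s hs
    by_cases h : n ∈ t
    · exact ⟨⟨t, h2⟩, h1, h, t, List.prefix_refl t, h3⟩
    · refine ⟨⟨t ++ [n], ?_⟩, h1.trans (List.prefix_append _ _), by simp, t,
        List.prefix_append _ _, h3⟩
      rw [List.nodup_append]
      refine ⟨h2, List.nodup_singleton n, fun a ha b hb => ?_⟩
      rw [List.mem_singleton] at hb
      rintro rfl
      rw [hb] at ha
      exact h ha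
  choose nx hn1 hn2 hn3 using hstep
  let T : ℕ → {s : List ℕ // s.Nodup} := fun n => Nat.rec ⟨s, hs⟩ (fun n t => nx n t) n
  have hT : ∀ n, T (n + 1) = nx n (T n) := fun n => rfl
  have hmono : ∀ m n, m ≤ n → (T m).1 <+: (T n).1 := by
    intro m n hmn
    induction n, hmn using Nat.le_induction with
    | base => exact List.prefix_refl _
    | succ n _ ih =>
      rw [hT]
      exact ih.trans (hn1 n (T n))
  have hmem : ∀ n, n ∈ (T (n + 1)).1 := fun n => by
    rw [hT]
    exact hn2 n (T n)
  have hlen : ∀ i, ∃ n, i < (T n).1.length := by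
    intro i
    by_contra hcon
    push Not at hcon
    have h1 : ∀ n, n ∈ (T (i + 1)).1 ∨ i + 1 < n + 1 := by
      intro n
      by_cases h : n < i + 1
      · exact Or.inl ((hmono (n + 1) (i + 1) (by omega)).subset (hmem n))
      · exact Or.inr (by omega)
    have h2 : (Finset.range (i + 1)) ⊆ (T (i + 1)).1.toFinset := by
      intro n hn
      rw [List.mem_toFinset]
      rcases h1 n with h | h
      · exact h
      · rw [Finset.mem_range] at hn
        omega
    have h3 := Finset.card_le_card h2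
    rw [Finset.card_range, List.toFinset_card_of_nodup (T (i + 1)).2] at h3
    have h4 := hcon (i + 1)
    omega
  let f : ℕ → ℕ := fun i => ent (T (Nat.find (hlen i))).1 i
  have hf : ∀ i n, i < (T n).1.length → f i = ent (T n).1 i := by
    intro i n hi
    have h1 : Nat.find (hlen i) ≤ n := Nat.find_min' _ hi
    exact (ent_prefix (hmono _ _ h1) (Nat.find_spec (hlen i))).symm
  have hini : ∀ n, (T n).1 = ini f (T n).1.length := by
    intro n
    refine List.ext_getElem (by rw [ini_length]) fun i h1 h2 => ?_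
    have h3 := hf i n h1
    have h4 := ini_ent f h1
    unfold ent at h3 h4
    rw [List.getD_eq_getElem _ _ h1] at h3
    rw [List.getD_eq_getElem _ _ h2] at h4
    rw [h4, h3]
  have hinj : Function.Injective f := by
    intro i j hij
    obtain ⟨n, hn⟩ := hlen (max i j)
    have hi : i < (T n).1.length := lt_of_le_of_lt (le_max_left _ _) hn
    have hj : j < (T n).1.length := lt_of_le_of_lt (le_max_right _ _) hn
    rw [hf i n hi, hf j n hj] at hij
    unfold ent at hij
    rw [List.getD_eq_getElem _ _ hi, List.getD_eq_getElem _ _ hj] at hij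
    exact (List.Nodup.getElem_inj_iff (T n).2).1 hij
  have hsur : Function.Surjective f := by
    intro k
    obtain ⟨i, hi, h⟩ := List.getElem_of_mem (hmem k)
    refine ⟨i, ?_⟩
    rw [hf i (k + 1) hi]
    unfold ent
    rw [List.getD_eq_getElem _ _ hi]
    exact h
  refine ⟨Equiv.ofBijective f ⟨hinj, hsur⟩, ?_, fun n => ?_⟩
  · change s <+: ini f s.length
    have h1 : (T 0).1 = s := rfl
    have h2 := hini 0
    rw [h1] at h2
    rw [← h2]
  · obtain ⟨r, h1, h2⟩ := hn3 n (T n)
    refine ⟨r.length, ?_⟩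
    change ini f r.length ∈ S n
    rw [← hT, hini (n + 1)] at h1
    rw [← ini_of_prefix h1]
    exact h2

/-- generic bijections for a code -/
def Gn (x : List ℕ → D) (b : Code D) (g : ℕ → ℕ) : Prop :=
  (∀ c ∈ cods b, ∃ n, Fc x c (ini g n) ∨ Fc x (.compl c) (ini g n)) ∧
  ∀ c, .inter c ∈ cods b → ∃ n, Fc x (.inter c) (ini g n) ∨ ∃ k, Fc x (.compl (c k)) (ini g n)

theorem exists_gn (x : List ℕ → D) (b : Code D) (s : List ℕ) (hs : s.Nodup) :
    ∃ g : Equiv.Perm ℕ, s <+: ini g s.length ∧ Gn x b g := by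
  have hd1 : ∀ (c : Code D) (s : List ℕ), s.Nodup → ∃ t, s <+: t ∧ t.Nodup ∧
      (Fc x c t ∨ Fc x (.compl c) t) := by
    intro c s hs
    by_cases h : Fc x c s
    · exact ⟨s, List.prefix_refl s, hs, Or.inl h⟩
    · obtain ⟨t, h1, h2, h3⟩ := Fc.stable hs h
      exact ⟨t, h1, h2, Or.inr h3⟩
  have hd2 : ∀ (c : ℕ → Code D) (s : List ℕ), s.Nodup → ∃ t, s <+: t ∧ t.Nodup ∧
      (Fc x (.inter c) t ∨ ∃ k, Fc x (.compl (c k)) t) := by
    intro c s hs
    by_cases h : Fc x (.inter c) s
    · exact ⟨s, List.prefix_refl s, hs, Or.inl h⟩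
    · have h' : ¬ ∀ n, Fc x (c n) s := h
      push Not at h'
      obtain ⟨k, hk⟩ := h'
      obtain ⟨t, h1, h2, h3⟩ := Fc.stable hs hk
      exact ⟨t, h1, h2, Or.inr ⟨k, h3⟩⟩
  obtain ⟨e, he⟩ := (cods_countable b).exists_eq_range ⟨b, self_cods b⟩
  let S : ℕ → Set (List ℕ) := fun n => {t | (Fc x (e n) t ∨ Fc x (.compl (e n)) t) ∧
    ∀ c, e n = .inter c → (Fc x (.inter c) t ∨ ∃ k, Fc x (.compl (c k)) t)}
  have hS : ∀ n (s : List ℕ), s.Nodup → ∃ t, s <+: t ∧ t.Nodup ∧ t ∈ S n := by
    intro n s hs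
    obtain ⟨t, h1, h2, h3⟩ := hd1 (e n) s hs
    by_cases hc : ∃ c, e n = .inter c
    · obtain ⟨c, hc⟩ := hc
      obtain ⟨r, k1, k2, k3⟩ := hd2 c t h2
      refine ⟨r, h1.trans k1, k2, ?_, fun c' hc' => ?_⟩
      · rcases h3 with h3 | h3
        · exact Or.inl (h3.mono k1)
        · exact Or.inr (h3.mono k1)
      · rw [hc] at hc'
        injection hc' with hc'
        rw [← hc']
        exact k3
    · exact ⟨t, h1, h2, h3, fun c hc' => absurd ⟨c, hc'⟩ hc⟩
  obtain ⟨g, h1, h2⟩ := exists_generic S hS s hs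
  refine ⟨g, h1, fun c hc => ?_, fun c hc => ?_⟩
  · rw [he] at hc
    obtain ⟨n, rfl⟩ := hc
    obtain ⟨m, hm⟩ := h2 n
    exact ⟨m, hm.1⟩
  · rw [he] at hc
    obtain ⟨n, hn⟩ := hc
    obtain ⟨m, hm⟩ := h2 n
    exact ⟨m, hm.2 c hn⟩

theorem truth {x : List ℕ → D} {b : Code D} {g : Equiv.Perm ℕ} (hg : Gn x b g) (c : Code D) :
    c ∈ cods b → ((fun l : List ℕ => x (l.map g)) ∈ eval c ↔ ∃ n, Fc x c (ini g n)) := by
  induction c with
  | atom l A hA =>
    intro _
    have hmax : ∃ n, ∀ i ∈ l, i < n := by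
      refine ⟨l.sum + 1, fun i hi => ?_⟩
      have := List.single_le_sum (fun x _ => Nat.zero_le x) i hi
      omega
    have hmap : ∀ (t : List ℕ) (n : ℕ), ini g n <+: t → (∀ i ∈ l, i < n) →
        l.map (ent t) = l.map g := by
      intro t n ht hn
      refine List.map_congr_left fun i hi => ?_
      rw [ent_prefix ht (by rw [ini_length]; exact hn i hi), ini_ent g (hn i hi)]
    constructor
    · intro h
      obtain ⟨n, hn⟩ := hmax
      refine ⟨n, fun t ht _ _ => ?_⟩
      rw [hmap t n ht hn]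
      exact h
    · rintro ⟨n, h⟩
      obtain ⟨m, hm⟩ := hmax
      have h1 := h (ini g (max n m)) (ini_prefix g (le_max_left _ _)) (ini_nodup g.injective _)
        (fun i hi => by
          rw [ini_length]
          exact lt_of_lt_of_le (hm i hi) (le_max_right _ _))
      rw [hmap _ m (ini_prefix g (le_max_right _ _)) hm] at h1
      exact h1
  | compl c ih =>
    intro hc
    have ih' := ih (cods_compl hc)
    change (_ ∉ eval c) ↔ _
    rw [ih']
    constructor
    · intro h
      obtain ⟨n, h1 | h1⟩ := hg.1 c (cods_compl hc)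
      · exact absurd ⟨n, h1⟩ h
      · exact ⟨n, h1⟩
    · rintro ⟨n, h⟩ ⟨m, hm⟩
      exact h (ini g (max n m)) (ini_prefix g (le_max_left _ _)) (ini_nodup g.injective _)
        (hm.mono (ini_prefix g (le_max_right _ _)))
  | inter c ih =>
    intro hc
    have ih' := fun n => ih n (cods_inter hc n)
    change _ ∈ ⋂ n, eval (c n) ↔ _
    rw [mem_iInter]
    constructor
    · intro h
      obtain ⟨n, h1 | ⟨k, h1⟩⟩ := hg.2 c hc
      · exact ⟨n, h1⟩
      · obtain ⟨m, hm⟩ := (ih' k).1 (h k)
        exact absurd (hm.mono (ini_prefix g (le_max_right n m)))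
          (h1 (ini g (max n m)) (ini_prefix g (le_max_left _ _)) (ini_nodup g.injective _))
    · rintro ⟨n, h⟩ k
      exact (ih' k).2 ⟨n, h k⟩

/-- membership in an invariant Borel set is forced by the empty sequence -/
theorem inv_iff {x : List ℕ → D} {b : Code D}
    (hinv : ∀ g : Equiv.Perm ℕ, (fun l : List ℕ => x (l.map g)) ∈ eval b ↔ x ∈ eval b) :
    x ∈ eval b ↔ Fc x b [] := by
  constructor
  · intro hx
    by_contra h
    obtain ⟨t, _, h2, h3⟩ := Fc.stable List.nodup_nil h
    obtain ⟨g, h4, h5⟩ := exists_gn x b t h2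
    obtain ⟨m, hm⟩ := (truth h5 b (self_cods b)).1 ((hinv g).2 hx)
    refine h3 (ini g (max t.length m)) (h4.trans (ini_prefix g (le_max_left _ _)))
      (ini_nodup g.injective _) (hm.mono (ini_prefix g (le_max_right _ _)))
  · intro h
    obtain ⟨g, _, h5⟩ := exists_gn x b [] List.nodup_nil
    refine (hinv g).1 ((truth h5 b (self_cods b)).2 ⟨0, ?_⟩)
    exact h

end Pool.Agent.H71.NV
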