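import Pool.Agent.H71.NV.V1

/-!
# The structure of finite sequences
-/

set_option autoImplicit false

open Set

namespace Pool.Agent.H71.NV

/-- the labels: length and label of a sequence, and the places at which it is an entry -/
abbrev LD (D : Type) : Type := (ℕ × D) × (ℕ → Bool)

/-- binary structures -/
abbrev Str (D : Type) : Type := (Fin 2 → ℕ) → LD D

variable {D : Type}

/-- the length -/
def len (y : Str D) (s : ℕ) : ℕ := (y ![s, s]).1.1

/-- the label -/
def lab (y : Str D) (s : ℕ) : D := (y ![s, s]).1.2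

/-- `s` is the entry with number `i` of `t` -/
def En (y : Str D) (i s t : ℕ) : Prop :=
  (s = t ∧ len y s = 1 ∧ i = 0) ∨ (s ≠ t ∧ (y ![s, t]).2 i = true)

/-- the axioms -/
structure Ax (d0 : D) (y : Str D) : Prop where
  diag : ∀ s, (y ![s, s]).2 = fun _ => false
  off : ∀ s t, s ≠ t → (y ![s, t]).1 = (0, d0)
  en1 : ∀ i s t, En y i s t → len y s = 1 ∧ i < len y t
  ex : ∀ i t, i < len y t → ∃ s, En y i s t
  un : ∀ i s s' t, En y i s t → En y i s' t → s = s'
  inj : ∀ t t', len y t = len y t' → (∀ i, i < len y t → ∃ u, En y i u t ∧ En y i u t') → t = t'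
  nil : ∃ t, len y t = 0
  cons : ∀ n t u, len y t = n → len y u = 1 → ∃ t', len y t' = n + 1 ∧ En y n u t' ∧
    ∀ i, i < n → ∃ w, En y i w t ∧ En y i w t'
  inf : ∀ n, ∃ t, len y t = n ∧ ∀ i j, i < j → j < n → ¬ ∃ u, En y i u t ∧ En y j u t

/-- extension -/
def Pf (y : Str D) (s t : ℕ) : Prop :=
  ∃ n, len y s = n ∧ n ≤ len y t ∧ ∀ i, i < n → ∃ u, En y i u s ∧ En y i u t

/-- distinct entries -/
def Nd (y : Str D) (t : ℕ) : Prop :=
  ∀ i j, i < j → j < len y t → ¬ ∃ u, En y i u t ∧ En y j u t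

/-- `r` consists of the entries of `t` with numbers in `l` -/
def Rl (y : Str D) (l : List ℕ) (r t : ℕ) : Prop :=
  len y r = l.length ∧ ∀ i, i < l.length → ∃ u, En y i u r ∧ En y (ent l i) u t

/-- forcing, in the structure of sequences -/
def Fo [MeasurableSpace D] (y : Str D) : Code D → ℕ → Prop
  | .atom l A _, s => ∀ t, Pf y s t → Nd y t → (∀ i ∈ l, i < len y t) → ∀ r, Rl y l r t →
      lab y r ∈ A
  | .compl b, s => ∀ t, Pf y s t → Nd y t → ¬ Fo y b t
  | .inter b, s => ∀ n, Fo y (b n) s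

/-- the enumeration of the finite sequences -/
def E : ℕ ≃ List ℕ := (Denumerable.eqv (List ℕ)).symm

open Classical in
/-- the structure of sequences of a structure -/
noncomputable def yx (d0 : D) (x : List ℕ → D) : Str D := fun v =>
  (if v 0 = v 1 then ((E (v 0)).length, x (E (v 0))) else (0, d0),
    fun i => decide (v 0 ≠ v 1 ∧ ∃ a, E (v 0) = [a] ∧ (E (v 1))[i]? = some a))

variable {d0 : D} {x x' : List ℕ → D}

theorem yx_self (s : ℕ) : yx d0 x ![s, s] = (((E s).length, x (E s)), fun _ => false) := by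
  classical
  unfold yx
  refine Prod.ext ?_ (funext fun i => ?_)
  · exact if_pos rfl
  · exact decide_eq_false fun h => h.1 rfl

theorem yx_ne {s t : ℕ} (h : s ≠ t) : (yx d0 x ![s, t]).1 = (0, d0) := if_neg h

theorem yx_bit {s t : ℕ} (h : s ≠ t) (i : ℕ) :
    (yx d0 x ![s, t]).2 i = true ↔ ∃ a, E s = [a] ∧ (E t)[i]? = some a := by
  classical
  unfold yx
  change decide (s ≠ t ∧ ∃ a, E s = [a] ∧ (E t)[i]? = some a) = true ↔ _
  rw [decide_eq_true_iff]
  exact ⟨fun h' => h'.2, fun h' => ⟨h, h'⟩⟩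

theorem len_yx (s : ℕ) : len (yx d0 x) s = (E s).length := by
  unfold len
  rw [yx_self]

theorem lab_yx (s : ℕ) : lab (yx d0 x) s = x (E s) := by
  unfold lab
  rw [yx_self]

theorem en_yx {i s t : ℕ} : En (yx d0 x) i s t ↔ ∃ a, E s = [a] ∧ (E t)[i]? = some a := by
  unfold En
  by_cases h : s = t
  · subst h
    rw [len_yx]
    constructor
    · rintro (⟨_, h1, rfl⟩ | ⟨h1, _⟩)
      · obtain ⟨a, ha⟩ := List.length_eq_one_iff.1 h1
        refine ⟨a, ha, ?_⟩
        rw [ha]
        rfl
      · exact absurd rfl h1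
    · rintro ⟨a, ha, h1⟩
      left
      rw [ha] at h1 ⊢
      refine ⟨rfl, rfl, ?_⟩
      by_contra hi
      rw [List.getElem?_eq_none (by simp; omega)] at h1
      exact absurd h1 (by simp)
  · rw [yx_bit h]
    exact ⟨fun h' => (h'.resolve_left fun h1 => h h1.1).2, fun h' => Or.inr ⟨h, h'⟩⟩

/-- common entries -/
theorem en_common {i j s t : ℕ} : (∃ u, En (yx d0 x) i u s ∧ En (yx d0 x) j u t) ↔
    ∃ a, (E s)[i]? = some a ∧ (E t)[j]? = some a := by
  constructor
  · rintro ⟨u, h1, h2⟩
    obtain ⟨a, ha, h1⟩ := en_yx.1 h1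
    obtain ⟨a', ha', h2⟩ := en_yx.1 h2
    rw [ha] at ha'
    injection ha' with ha'
    rw [ha']  at h1
    exact ⟨a', h1, h2⟩
  · rintro ⟨a, h1, h2⟩
    refine ⟨E.symm [a], en_yx.2 ⟨a, ?_, h1⟩, en_yx.2 ⟨a, ?_, h2⟩⟩ <;> rw [E.apply_symm_apply]

theorem pf_yx {s t : ℕ} : Pf (yx d0 x) s t ↔ E s <+: E t := by
  unfold Pf
  simp only [len_yx, en_common]
  constructor
  · rintro ⟨n, rfl, h1, h2⟩
    rw [List.prefix_iff_eq_take]
    refine List.ext_getElem? fun i => ?_
    by_cases hi : i < (E s).length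
    · obtain ⟨a, h3, h4⟩ := h2 i hi
      rw [h3, List.getElem?_take_of_lt hi, h4]
    · rw [List.getElem?_eq_none (by omega), List.getElem?_eq_none]
      rw [List.length_take]
      omega
  · intro h
    refine ⟨_, rfl, h.length_le, fun i hi => ?_⟩
    obtain ⟨r, hr⟩ := h
    refine ⟨(E s)[i], List.getElem?_eq_getElem hi, ?_⟩
    rw [← hr, List.getElem?_append_left hi, List.getElem?_eq_getElem hi]

theorem nd_yx {t : ℕ} : Nd (yx d0 x) t ↔ (E t).Nodup := by
  unfold Nd
  simp only [len_yx, en_common]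
  rw [List.nodup_iff_getElem?_ne_getElem?]
  constructor
  · intro h i j hij hj h1
    refine h i j hij hj ⟨(E t)[j], ?_, List.getElem?_eq_getElem hj⟩
    rw [h1, List.getElem?_eq_getElem hj]
  · rintro h i j hij hj ⟨a, h1, h2⟩
    exact h i j hij hj (by rw [h1, h2])

theorem rl_yx {l : List ℕ} {r t : ℕ} (hl : ∀ i ∈ l, i < (E t).length) :
    Rl (yx d0 x) l r t ↔ E r = l.map (ent (E t)) := by
  unfold Rl
  simp only [len_yx, en_common]
  constructor
  · rintro ⟨h1, h2⟩
    refine List.ext_getElem? fun i => ?_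
    by_cases hi : i < l.length
    · obtain ⟨a, h3, h4⟩ := h2 i hi
      rw [h3, List.getElem?_map, List.getElem?_eq_getElem hi]
      have h5 : ent l i = l[i] := List.getD_eq_getElem _ _ hi
      rw [h5] at h4
      have h6 : ent (E t) l[i] = a := by
        unfold ent
        rw [List.getD_eq_getElem?_getD, h4]
        rfl
      rw [Option.map_some, h6]
    · rw [List.getElem?_eq_none (by omega), List.getElem?_eq_none]
      rw [List.length_map]
      omega
  · intro h
    refine ⟨by rw [h, List.length_map], fun i hi => ⟨ent (E t) (l[i]), ?_, ?_⟩⟩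
    · rw [h, List.getElem?_map, List.getElem?_eq_getElem hi]
      rfl
    · have h5 : ent l i = l[i] := List.getD_eq_getElem _ _ hi
      have h6 := hl l[i] (List.getElem_mem hi)
      rw [h5, List.getElem?_eq_getElem h6]
      unfold ent
      rw [List.getD_eq_getElem _ _ h6]

theorem fo_yx [MeasurableSpace D] (b : Code D) : ∀ s, Fo (yx d0 x) b s ↔ Fc x b (E s) := by
  induction b with
  | atom l A hA =>
    intro s
    unfold Fo Fc
    constructor
    · intro h t h1 h2 h3
      have h4 := h (E.symm t) (pf_yx.2 (by rw [E.apply_symm_apply]; exact h1))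
        (nd_yx.2 (by rw [E.apply_symm_apply]; exact h2))
        (fun i hi => by rw [len_yx, E.apply_symm_apply]; exact h3 i hi)
        (E.symm (l.map (ent t)))
        ((rl_yx (by rw [E.apply_symm_apply]; exact h3)).2 (by
          rw [E.apply_symm_apply, E.apply_symm_apply]))
      rw [lab_yx, E.apply_symm_apply] at h4
      exact h4
    · intro h t h1 h2 h3 r h4
      rw [len_yx] at h3
      rw [lab_yx, (rl_yx h3).1 h4]
      exact h (E t) (pf_yx.1 h1) (nd_yx.1 h2) h3
  | compl b ih =>
    intro s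
    unfold Fo Fc
    constructor
    · intro h t h1 h2 h3
      refine h (E.symm t) (pf_yx.2 (by rw [E.apply_symm_apply]; exact h1))
        (nd_yx.2 (by rw [E.apply_symm_apply]; exact h2)) ((ih _).2 ?_)
      rw [E.apply_symm_apply]
      exact h3
    · intro h t h1 h2 h3
      exact h (E t) (pf_yx.1 h1) (nd_yx.1 h2) ((ih _).1 h3)
  | inter b ih => exact fun s => forall_congr' fun n => ih n s

theorem ax_yx : Ax d0 (yx d0 x) := by
  refine ⟨fun s => ?_, fun s t h => yx_ne h, ?_, ?_, ?_, ?_, ?_, ?_, ?_⟩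
  · rw [yx_self]
  · intro i s t h
    obtain ⟨a, h1, h2⟩ := en_yx.1 h
    rw [len_yx, len_yx, h1]
    refine ⟨rfl, ?_⟩
    by_contra h3
    rw [List.getElem?_eq_none (by omega)] at h2
    exact absurd h2 (by simp)
  · intro i t h
    rw [len_yx] at h
    refine ⟨E.symm [(E t)[i]], en_yx.2 ⟨(E t)[i], by rw [E.apply_symm_apply],
      List.getElem?_eq_getElem h⟩⟩
  · intro i s s' t h h'
    obtain ⟨a, h1, h2⟩ := en_yx.1 h
    obtain ⟨a', h1', h2'⟩ := en_yx.1 h'
    rw [h2] at h2'
    injection h2' with h3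
    apply E.injective
    rw [h1, h1', h3]
  · intro t t' h1 h2
    simp only [len_yx, en_common] at h1 h2
    apply E.injective
    refine List.ext_getElem? fun i => ?_
    by_cases hi : i < (E t).length
    · obtain ⟨a, h3, h4⟩ := h2 i hi
      rw [h3, h4]
    · rw [List.getElem?_eq_none (by omega), List.getElem?_eq_none (by omega)]
  · refine ⟨E.symm [], ?_⟩
    rw [len_yx, E.apply_symm_apply]
    rfl
  · intro n t u h1 h2
    rw [len_yx] at h1 h2
    obtain ⟨a, ha⟩ := List.length_eq_one_iff.1 h2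
    refine ⟨E.symm (E t ++ [a]), ?_, en_yx.2 ⟨a, ha, ?_⟩, fun i hi => en_common.2 ?_⟩
    · rw [len_yx, E.apply_symm_apply, List.length_append, h1]
      rfl
    · rw [E.apply_symm_apply, ← h1, List.getElem?_append_right le_rfl, Nat.sub_self]
      rfl
    · have hi' : i < (E t).length := by omega
      refine ⟨(E t)[i], List.getElem?_eq_getElem hi', ?_⟩
      rw [E.apply_symm_apply, List.getElem?_append_left hi', List.getElem?_eq_getElem hi']
  · intro n
    refine ⟨E.symm (List.range n), ?_, ?_⟩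
    · rw [len_yx, E.apply_symm_apply, List.length_range]
    · intro i j hij hj h
      have h1 : Nd (yx d0 x) (E.symm (List.range n)) := by
        rw [nd_yx, E.apply_symm_apply]
        exact List.nodup_range
      refine h1 i j hij ?_ h
      rw [len_yx, E.apply_symm_apply, List.length_range]
      exact hj

/-- isomorphic structures of all arities -/
def IsoL (x x' : List ℕ → D) : Prop := ∃ g : Equiv.Perm ℕ, ∀ l : List ℕ, x' (l.map g) = x l

/-- isomorphic binary structures -/
def IsoS (y y' : Str D) : Prop := ∃ g : Equiv.Perm ℕ, ∀ v : Fin 2 → ℕ, y' (g ∘ v) = y v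

theorem iso2 {y y' : Str D} {g : Equiv.Perm ℕ} (hg : ∀ v : Fin 2 → ℕ, y' (g ∘ v) = y v)
    (s t : ℕ) : y' ![g s, g t] = y ![s, t] := by
  rw [← hg ![s, t]]
  congr 1
  funext i
  fin_cases i <;> rfl

theorem len_iso {y y' : Str D} {g : Equiv.Perm ℕ} (hg : ∀ v : Fin 2 → ℕ, y' (g ∘ v) = y v)
    (s : ℕ) : len y' (g s) = len y s := by
  unfold len
  rw [iso2 hg]

theorem lab_iso {y y' : Str D} {g : Equiv.Perm ℕ} (hg : ∀ v : Fin 2 → ℕ, y' (g ∘ v) = y v)
    (s : ℕ) : lab y' (g s) = lab y s := by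
  unfold lab
  rw [iso2 hg]

theorem en_iso {y y' : Str D} {g : Equiv.Perm ℕ} (hg : ∀ v : Fin 2 → ℕ, y' (g ∘ v) = y v)
    (i s t : ℕ) : En y' i (g s) (g t) ↔ En y i s t := by
  unfold En
  rw [iso2 hg, len_iso hg, g.injective.eq_iff, g.injective.ne_iff]

theorem isoL_of_isoS (h : IsoS (yx d0 x) (yx d0 x')) : IsoL x x' := by
  obtain ⟨g, hg⟩ := h
  have h1 : ∀ a, ∃ c, E (g (E.symm [a])) = [c] := by
    intro a
    have h2 := len_iso hg (E.symm [a])
    rw [len_yx, len_yx, E.apply_symm_apply] at h2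
    exact List.length_eq_one_iff.1 h2
  have h1' : ∀ c, ∃ a, E (g.symm (E.symm [c])) = [a] := by
    intro c
    have h2 := len_iso hg (g.symm (E.symm [c]))
    rw [len_yx, len_yx, g.apply_symm_apply, E.apply_symm_apply] at h2
    exact List.length_eq_one_iff.1 h2.symm
  choose π hπ using h1
  choose π' hπ' using h1'
  have hl : ∀ a, π' (π a) = a := by
    intro a
    have h2 := hπ' (π a)
    rw [← hπ a, E.symm_apply_apply, g.symm_apply_apply, E.apply_symm_apply] at h2
    injection h2 with h2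
    exact h2.symm
  have hr : ∀ c, π (π' c) = c := by
    intro c
    have h2 := hπ (π' c)
    rw [← hπ' c, E.symm_apply_apply, g.apply_symm_apply, E.apply_symm_apply] at h2
    injection h2 with h2
    exact h2.symm
  refine ⟨⟨π, π', hl, hr⟩, fun l => ?_⟩
  change x' (l.map π) = x l
  have h2 : E (g (E.symm l)) = l.map π := by
    refine List.ext_getElem? fun i => ?_
    have h3 := len_iso hg (E.symm l)
    rw [len_yx, len_yx, E.apply_symm_apply] at h3
    by_cases hi : i < l.length
    · have h4 : En (yx d0 x) i (E.symm [l[i]]) (E.symm l) := by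
        rw [en_yx, E.apply_symm_apply, E.apply_symm_apply]
        exact ⟨l[i], rfl, List.getElem?_eq_getElem hi⟩
      obtain ⟨c, hc, h5⟩ := en_yx.1 ((en_iso hg _ _ _).2 h4)
      rw [hπ] at hc
      injection hc with hc
      rw [h5, List.getElem?_map, List.getElem?_eq_getElem hi, Option.map_some, hc]
    · rw [List.getElem?_eq_none (by omega), List.getElem?_eq_none]
      rw [List.length_map]
      omega
  have h3 := lab_iso hg (E.symm l)
  rw [lab_yx, lab_yx, h2, E.apply_symm_apply] at h3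
  exact h3

theorem isoS_of_isoL (h : IsoL x x') : IsoS (yx d0 x) (yx d0 x') := by
  classical
  obtain ⟨π, hπ⟩ := h
  have hm : ∀ l : List ℕ, (l.map π).map π.symm = l := by
    intro l
    rw [List.map_map]
    exact (List.map_congr_left fun a _ => π.symm_apply_apply a).trans (List.map_id l)
  have hm' : ∀ l : List ℕ, (l.map π.symm).map π = l := by
    intro l
    rw [List.map_map]
    exact (List.map_congr_left fun a _ => π.apply_symm_apply a).trans (List.map_id l)
  let g : Equiv.Perm ℕ := ⟨fun s => E.symm ((E s).map π), fun s => E.symm ((E s).map π.symm),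
    fun s => by
      change E.symm ((E (E.symm ((E s).map π))).map π.symm) = s
      rw [E.apply_symm_apply, hm, E.symm_apply_apply],
    fun s => by
      change E.symm ((E (E.symm ((E s).map π.symm))).map π) = s
      rw [E.apply_symm_apply, hm', E.symm_apply_apply]⟩
  have hE : ∀ s, E (g s) = (E s).map π := fun s => E.apply_symm_apply _
  refine ⟨g, fun v => ?_⟩
  have hne : (g ∘ v) 0 = (g ∘ v) 1 ↔ v 0 = v 1 := g.injective.eq_iff
  unfold yx
  refine Prod.ext ?_ (funext fun i => ?_)
  · change (if (g ∘ v) 0 = (g ∘ v) 1 then ((E (g (v 0))).length, x' (E (g (v 0)))) else (0, d0)) = _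
    rw [hE, List.length_map, hπ]
    by_cases h : v 0 = v 1
    · rw [if_pos (hne.2 h), if_pos h]
    · rw [if_neg (fun h' => h (hne.1 h')), if_neg h]
  · change decide ((g ∘ v) 0 ≠ (g ∘ v) 1 ∧ ∃ a, E (g (v 0)) = [a] ∧ (E (g (v 1)))[i]? = some a) =
      decide (v 0 ≠ v 1 ∧ ∃ a, E (v 0) = [a] ∧ (E (v 1))[i]? = some a)
    rw [decide_eq_decide, hE, hE]
    refine and_congr (not_congr hne) ?_
    constructor
    · rintro ⟨a, h1, h2⟩
      obtain ⟨c, hc⟩ := List.length_eq_one_iff.1 (by
        rw [← List.length_map (f := π), h1]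
        rfl : (E (v 0)).length = 1)
      rw [hc] at h1
      injection h1 with h1
      refine ⟨c, hc, ?_⟩
      rw [List.getElem?_map, Option.map_eq_some_iff] at h2
      obtain ⟨c', h3, h4⟩ := h2
      rw [← h1] at h4
      rw [h3, π.injective h4]
    · rintro ⟨a, h1, h2⟩
      refine ⟨π a, by rw [h1]; rfl, ?_⟩
      rw [List.getElem?_map, h2]
      rfl

end Pool.Agent.H71.NV
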