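import Pool.Agent.H71.NV.V2

/-!
# Decoding the structure of finite sequences
-/

set_option autoImplicit false

open Set

namespace Pool.Agent.H71.NV

variable {D : Type}

/-- the enumeration of the sequences of length one -/
noncomputable def kap (y : Str D) (n : ℕ) : ℕ := Nat.nth (fun s => len y s = 1) n

/-- `t` is the sequence with entries coded by `l` -/
def Tp (y : Str D) (l : List ℕ) (t : ℕ) : Prop :=
  len y t = l.length ∧ ∀ i, i < l.length → En y i (kap y (ent l i)) t

open Classical in
/-- the decoded structure -/
noncomputable def xy (d0 : D) (y : Str D) (l : List ℕ) : D :=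
  if h : ∃ t, Tp y l t then lab y (Nat.find h) else d0

variable {d0 : D} {y : Str D}

theorem U_infinite (h : Ax d0 y) : {s | len y s = 1}.Infinite := by
  intro hfin
  obtain ⟨t, h1, h2⟩ := h.inf (hfin.toFinset.card + 1)
  have h3 : ∀ i : Fin (hfin.toFinset.card + 1), ∃ s, En y i s t := fun i =>
    h.ex i t (by rw [h1]; exact i.2)
  choose s hs using h3
  have hinj : Function.Injective s := by
    intro i j hij
    by_contra hne
    rcases lt_or_gt_of_ne hne with h4 | h4
    · exact h2 i j h4 j.2 ⟨s i, hs i, by rw [hij]; exact hs j⟩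
    · exact h2 j i h4 i.2 ⟨s j, hs j, by rw [← hij]; exact hs i⟩
  have h5 : (Finset.univ.image s) ⊆ hfin.toFinset := by
    intro a ha
    obtain ⟨i, _, rfl⟩ := Finset.mem_image.1 ha
    rw [Set.Finite.mem_toFinset]
    exact (h.en1 _ _ _ (hs i)).1
  have h6 := Finset.card_le_card h5
  rw [Finset.card_image_of_injective _ hinj, Finset.card_univ, Fintype.card_fin] at h6
  omega

theorem kap_len (h : Ax d0 y) (n : ℕ) : len y (kap y n) = 1 :=
  Nat.nth_mem_of_infinite (U_infinite h) n

theorem kap_inj (h : Ax d0 y) : Function.Injective (kap y) := Nat.nth_injective (U_infinite h)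

theorem kap_sur (h : Ax d0 y) {s : ℕ} (hs : len y s = 1) : ∃ n, kap y n = s := by
  have h1 := Nat.range_nth_of_infinite (U_infinite h)
  have h2 : s ∈ {s | len y s = 1} := hs
  rw [← h1] at h2
  exact h2

theorem tp_unique (h : Ax d0 y) {l : List ℕ} {t t' : ℕ} (ht : Tp y l t) (ht' : Tp y l t') :
    t = t' := by
  refine h.inj t t' (ht.1.trans ht'.1.symm) fun i hi => ?_
  rw [ht.1] at hi
  exact ⟨_, ht.2 i hi, ht'.2 i hi⟩

theorem tp_exists (h : Ax d0 y) (l : List ℕ) : ∃ t, Tp y l t := by
  induction l using List.reverseRecOn with
  | nil =>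
    obtain ⟨t, ht⟩ := h.nil
    exact ⟨t, ht, fun i hi => absurd hi (by simp)⟩
  | append_singleton l a ih =>
    obtain ⟨t, h1, h2⟩ := ih
    obtain ⟨t', h3, h4, h5⟩ := h.cons l.length t (kap y a) h1 (kap_len h a)
    refine ⟨t', ?_, fun i hi => ?_⟩
    · rw [h3, List.length_append]
      rfl
    · rw [List.length_append, List.length_singleton] at hi
      by_cases hi' : i < l.length
      · obtain ⟨w, h6, h7⟩ := h5 i hi'
        have h8 := h.un i _ _ _ h6 (h2 i hi')
        have h9 : ent (l ++ [a]) i = ent l i := by
          unfold ent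
          rw [List.getD_append _ _ _ _ hi']
        rw [h9, ← h8]
        exact h7
      · obtain rfl : i = l.length := by omega
        have h9 : ent (l ++ [a]) l.length = a := by
          unfold ent
          rw [List.getD_append_right _ _ _ _ le_rfl, Nat.sub_self]
          rfl
        rw [h9]
        exact h4

theorem xy_eq (h : Ax d0 y) {l : List ℕ} {t : ℕ} (ht : Tp y l t) : xy d0 y l = lab y t := by
  classical
  have h1 : ∃ t, Tp y l t := ⟨t, ht⟩
  unfold xy
  rw [dif_pos h1]
  have h2 := Nat.find_spec h1
  rw [tp_unique h ht h2]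

/-- the structure of sequences of the decoded structure -/
theorem iso_xy (h : Ax d0 y) : IsoS (yx d0 (xy d0 y)) y := by
  classical
  choose τ hτ using tp_exists h
  have hinj : Function.Injective τ := by
    intro l l' hl
    have h1 := hτ l
    have h2 := hτ l'
    rw [hl] at h1
    have h3 : l.length = l'.length := h1.1.symm.trans h2.1
    refine List.ext_getElem h3 fun i hi hi' => ?_
    have h4 := kap_inj h (h.un i _ _ _ (h1.2 i hi) (h2.2 i hi'))
    unfold ent at h4
    rw [List.getD_eq_getElem _ _ hi, List.getD_eq_getElem _ _ hi'] at h4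
    exact h4
  have hsur : Function.Surjective τ := by
    intro t
    have h1 : ∀ i : ℕ, ∃ a, i < len y t → En y i (kap y a) t := by
      intro i
      by_cases hi : i < len y t
      · obtain ⟨s, hs⟩ := h.ex i t hi
        obtain ⟨a, ha⟩ := kap_sur h (h.en1 _ _ _ hs).1
        exact ⟨a, fun _ => by rw [ha]; exact hs⟩
      · exact ⟨0, fun h' => absurd h' hi⟩
    choose a ha using h1
    refine ⟨(List.range (len y t)).map a, ?_⟩
    refine tp_unique h (hτ _) ⟨by rw [List.length_map, List.length_range], fun i hi => ?_⟩
    rw [List.length_map, List.length_range] at hi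
    have h2 : ent ((List.range (len y t)).map a) i = a i := by
      unfold ent
      rw [List.getD_eq_getElem _ _ (by rw [List.length_map, List.length_range]; exact hi),
        List.getElem_map, List.getElem_range]
    rw [h2]
    exact ha i hi
  let T : List ℕ ≃ ℕ := Equiv.ofBijective τ ⟨hinj, hsur⟩
  have hT : ∀ l, Tp y l (T l) := hτ
  have hsing : ∀ a, T [a] = kap y a := by
    intro a
    have h1 := (hT [a]).2 0 (by simp)
    have h2 : En y 0 (kap y a) (kap y a) := Or.inl ⟨rfl, kap_len h a, rfl⟩
    have h3 : Tp y [a] (kap y a) := by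
      refine ⟨kap_len h a, fun i hi => ?_⟩
      have hi' : i = 0 := by
        simp at hi
        exact hi
      rw [hi']
      exact h2
    exact tp_unique h (hT [a]) h3
  have hen : ∀ i l l', En y i (T l) (T l') ↔ ∃ a, l = [a] ∧ l'[i]? = some a := by
    intro i l l'
    constructor
    · intro h1
      obtain ⟨h2, h3⟩ := h.en1 _ _ _ h1
      rw [(hT l).1] at h2
      rw [(hT l').1] at h3
      obtain ⟨a, ha⟩ := List.length_eq_one_iff.1 h2
      refine ⟨a, ha, ?_⟩
      have h4 := h.un i _ _ _ h1 ((hT l').2 i h3)
      rw [ha, hsing] at h4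
      have h5 := kap_inj h h4
      rw [List.getElem?_eq_getElem h3, h5]
      unfold ent
      rw [List.getD_eq_getElem _ _ h3]
    · rintro ⟨a, rfl, h1⟩
      have h3 : i < l'.length := by
        by_contra h3
        rw [List.getElem?_eq_none (by omega)] at h1
        exact absurd h1 (by simp)
      have h4 := (hT l').2 i h3
      rw [List.getElem?_eq_getElem h3] at h1
      injection h1 with h1
      rw [hsing]
      unfold ent at h4
      rw [List.getD_eq_getElem _ _ h3, h1] at h4
      exact h4
  let g : Equiv.Perm ℕ := E.trans T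
  have hg : ∀ s, g s = T (E s) := fun s => rfl
  refine ⟨g, fun v => ?_⟩
  have hgv : g ∘ v = ![g (v 0), g (v 1)] := by
    funext i
    fin_cases i <;> rfl
  rw [hgv]
  by_cases hv : v 0 = v 1
  · rw [← hv]
    have h1 : yx d0 (xy d0 y) v = yx d0 (xy d0 y) ![v 0, v 0] := by
      congr 1
      funext i
      fin_cases i
      · rfl
      · exact hv.symm
    rw [h1, yx_self]
    refine Prod.ext (Prod.ext ?_ ?_) (h.diag _)
    · change len y (g (v 0)) = (E (v 0)).length
      rw [hg, (hT _).1]
    · change lab y (g (v 0)) = xy d0 y (E (v 0))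
      rw [hg, xy_eq h (hT _)]
  · have h1 : yx d0 (xy d0 y) v = yx d0 (xy d0 y) ![v 0, v 1] := by
      congr 1
      funext i
      fin_cases i <;> rfl
    have hgne : g (v 0) ≠ g (v 1) := g.injective.ne hv
    rw [h1]
    refine Prod.ext ?_ (funext fun i => ?_)
    · rw [h.off _ _ hgne, yx_ne hv]
    · refine Bool.eq_iff_iff.2 ?_
      rw [yx_bit hv, ← hen i (E (v 0)) (E (v 1))]
      unfold En
      exact ⟨fun h2 => Or.inr ⟨hgne, h2⟩, fun h2 => (h2.resolve_left fun h3 => hgne h3.1).2⟩

section Meas

variable [MeasurableSpace D]

theorem meas_str {P : Type} [MeasurableSpace P] {F : P → Str D} (hF : Measurable F) (s t : ℕ) :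
    Measurable fun u => F u ![s, t] := (measurable_pi_apply _).comp hF

theorem meas_len {P : Type} [MeasurableSpace P] {F : P → Str D} (hF : Measurable F) (s : ℕ) :
    Measurable fun u => len (F u) s := measurable_fst.comp (measurable_fst.comp (meas_str hF s s))

theorem meas_lab {P : Type} [MeasurableSpace P] {F : P → Str D} (hF : Measurable F) (s : ℕ) :
    Measurable fun u => lab (F u) s := measurable_snd.comp (measurable_fst.comp (meas_str hF s s))

theorem meas_en {P : Type} [MeasurableSpace P] {F : P → Str D} (hF : Measurable F) (i s t : ℕ) :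
    Measurable fun u => En (F u) i s t := by
  have h1 : Measurable fun u => (F u ![s, t]).2 i :=
    (measurable_pi_apply i).comp (measurable_snd.comp (meas_str hF s t))
  exact (measurable_const.and (((meas_len hF s).eq measurable_const).and measurable_const)).or
    (measurable_const.and (h1.eq measurable_const))

theorem meas_kap {P : Type} [MeasurableSpace P] {F : P → Str D} (hF : Measurable F) (n : ℕ) :
    Measurable fun u => kap (F u) n := by
  classical
  have hcnt : ∀ k, Measurable fun u => Nat.count (fun s => len (F u) s = 1) k := by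
    intro k
    induction k with
    | zero =>
      simp only [Nat.count_zero]
      exact measurable_const
    | succ k ih =>
      simp only [Nat.count_succ]
      exact ih.add (Measurable.ite (measurableSet_setOfPred.2
        ((meas_len hF k).eq measurable_const)) measurable_const measurable_const)
  -- the value is determined by countably many measurable conditions
  have h1 : ∀ (u : P) (k : ℕ), k ≠ 0 → (kap (F u) n = k ↔ len (F u) k = 1 ∧
      Nat.count (fun s => len (F u) s = 1) k = n) := by
    intro u k hk
    constructor
    · intro h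
      have hlt : ∀ hf : {s | len (F u) s = 1}.Finite, n < hf.toFinset.card := by
        intro hf
        by_contra hcon
        have h2 := Nat.nth_of_card_le hf (not_lt.1 hcon)
        exact hk (by rw [← h, ← h2]; rfl)
      have h2 := Nat.nth_mem n hlt
      have h3 := Nat.count_nth hlt
      change len (F u) (kap (F u) n) = 1 at h2
      change Nat.count _ (kap (F u) n) = n at h3
      rw [h] at h2 h3
      exact ⟨h2, h3⟩
    · rintro ⟨h2, h3⟩
      have h4 := Nat.nth_count (p := fun s => len (F u) s = 1) h2
      rw [h3] at h4
      exact h4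
  have hk : ∀ k, k ≠ 0 → MeasurableSet {u | kap (F u) n = k} := by
    intro k hk
    have h2 : {u | kap (F u) n = k} = {u | len (F u) k = 1 ∧
        Nat.count (fun s => len (F u) s = 1) k = n} := by
      ext u
      exact h1 u k hk
    rw [h2]
    exact measurableSet_setOfPred.2 (((meas_len hF k).eq measurable_const).and
      ((hcnt k).eq measurable_const))
  refine measurable_to_countable' fun k => ?_
  by_cases hk0 : k = 0
  · subst hk0
    have h2 : (fun u => kap (F u) n) ⁻¹' {0} = (⋃ k : ℕ, {u | k ≠ 0 ∧ kap (F u) n = k})ᶜ := by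
      ext u
      simp only [mem_preimage, mem_singleton_iff, mem_compl_iff, mem_iUnion, mem_ofPred_eq,
        not_exists, not_and]
      constructor
      · intro h k hk h'
        exact hk (by rw [← h', h])
      · intro h
        by_contra h'
        exact h _ h' rfl
    rw [h2]
    refine (MeasurableSet.iUnion fun k => ?_).compl
    by_cases h3 : k = 0
    · have h4 : {u | k ≠ 0 ∧ kap (F u) n = k} = ∅ := by
        ext u
        simp [h3]
      rw [h4]
      exact MeasurableSet.empty
    · have h4 : {u | k ≠ 0 ∧ kap (F u) n = k} = {u | kap (F u) n = k} := by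
        ext u
        simp [h3]
      rw [h4]
      exact hk k h3
  · exact hk k hk0

theorem meas_tp {P : Type} [MeasurableSpace P] {F : P → Str D} (hF : Measurable F) (l : List ℕ)
    (t : ℕ) : Measurable fun u => Tp (F u) l t := by
  refine ((meas_len hF t).eq measurable_const).and (Measurable.forall fun i =>
    measurable_const.imp ?_)
  have h1 : (fun u => En (F u) i (kap (F u) (ent l i)) t) =
      fun u => ∃ s, kap (F u) (ent l i) = s ∧ En (F u) i s t := by
    funext u
    exact propext ⟨fun h => ⟨_, rfl, h⟩, fun ⟨s, h1, h2⟩ => h1 ▸ h2⟩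
  rw [h1]
  exact Measurable.exists fun s => ((meas_kap hF _).eq measurable_const).and (meas_en hF i s t)

theorem meas_xy {P : Type} [MeasurableSpace P] {F : P → Str D} (hF : Measurable F)
    (hA : ∀ u, Ax d0 (F u)) : Measurable fun u => xy d0 (F u) := by
  refine measurable_pi_lambda _ fun l => ?_
  intro A hA'
  have h1 : (fun u => xy d0 (F u) l) ⁻¹' A = {u | ∃ t, Tp (F u) l t ∧ lab (F u) t ∈ A} := by
    ext u
    constructor
    · intro h
      obtain ⟨t, ht⟩ := tp_exists (hA u) l
      refine ⟨t, ht, ?_⟩
      rw [← xy_eq (hA u) ht]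
      exact h
    · rintro ⟨t, ht, h⟩
      change xy d0 (F u) l ∈ A
      rw [xy_eq (hA u) ht]
      exact h
  rw [h1]
  exact measurableSet_setOfPred.2 (Measurable.exists fun t => (meas_tp hF l t).and
    (measurableSet_setOfPred.1 (meas_lab hF t hA')))

theorem meas_yx : Measurable fun x : List ℕ → D => yx d0 x := by
  refine measurable_pi_lambda _ fun v => ?_
  unfold yx
  refine Measurable.prodMk ?_ measurable_const
  split_ifs
  · exact measurable_const.prodMk (measurable_pi_apply _)
  · exact measurable_const

end Meas

end Pool.Agent.H71.NV
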