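import Pool.Agent.H71.NV.V3

/-!
# Three variables are enough
-/

set_option autoImplicit false
set_option linter.unusedSectionVars false

open Set

namespace Pool.Agent.H71.NV

/-- predicates of binary structures and three variables -/
abbrev Pd (C : Type) : Type := ((Fin 2 → ℕ) → C) → (Fin 3 → ℕ) → Prop

/-- families of predicates which are closed under the operations of the logic -/
structure Cl {C : Type} [MeasurableSpace C] (L : Pd C → Prop) : Prop where
  label : ∀ B : Set C, MeasurableSet B → ∀ i j : Fin 3, L fun y v => y ![v i, v j] ∈ B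
  equal : ∀ i j : Fin 3, L fun _ v => v i = v j
  not : ∀ Q, L Q → L fun y v => ¬ Q y v
  conj : ∀ Q : ℕ → Pd C, (∀ n, L (Q n)) → L fun y v => ∀ n, Q n y v
  ex : ∀ (i : Fin 3) (Q : Pd C), L Q → L fun y v => ∃ a, Q y (Function.update v i a)

section Ops

variable {C : Type} [MeasurableSpace C] {L : Pd C → Prop} (hL : Cl L)

include hL

theorem Cl.congr {Q Q' : Pd C} (hQ : L Q) (h : ∀ y v, Q y v ↔ Q' y v) : L Q' := by
  have h1 : Q = Q' := by
    funext y v
    exact propext (h y v)
  exact h1 ▸ hQ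

theorem Cl.tru : L fun _ _ => True :=
  hL.congr (hL.equal 0 0) fun _ _ => ⟨fun _ => trivial, fun _ => rfl⟩

theorem Cl.cst (p : Prop) : L fun _ _ => p := by
  by_cases hp : p
  · exact hL.congr hL.tru fun _ _ => ⟨fun _ => hp, fun _ => trivial⟩
  · exact hL.congr (hL.not _ hL.tru) fun _ _ => ⟨fun h => absurd trivial h, fun h => absurd h hp⟩

theorem Cl.and {Q Q' : Pd C} (h : L Q) (h' : L Q') : L fun y v => Q y v ∧ Q' y v := by
  refine hL.congr (hL.conj (fun n => if n = 0 then Q else Q') fun n => ?_) fun y v => ?_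
  · split_ifs
    · exact h
    · exact h'
  · constructor
    · intro h1
      exact ⟨h1 0, h1 1⟩
    · intro h1 n
      by_cases hn : n = 0
      · rw [if_pos hn]
        exact h1.1
      · rw [if_neg hn]
        exact h1.2

theorem Cl.imp {Q Q' : Pd C} (h : L Q) (h' : L Q') : L fun y v => Q y v → Q' y v := by
  refine hL.congr (hL.not _ (hL.and h (hL.not _ h'))) fun y v => ?_
  tauto

theorem Cl.or {Q Q' : Pd C} (h : L Q) (h' : L Q') : L fun y v => Q y v ∨ Q' y v := by
  refine hL.congr (hL.imp (hL.not _ h) h') fun y v => ?_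
  tauto

theorem Cl.exn {Q : ℕ → Pd C} (h : ∀ n, L (Q n)) : L fun y v => ∃ n, Q n y v := by
  refine hL.congr (hL.not _ (hL.conj _ fun n => hL.not _ (h n))) fun y v => ?_
  push Not
  exact Iff.rfl

theorem Cl.all (i : Fin 3) {Q : Pd C} (h : L Q) :
    L fun y v => ∀ a, Q y (Function.update v i a) := by
  refine hL.congr (hL.not _ (hL.ex i _ (hL.not _ h))) fun y v => ?_
  push Not
  exact Iff.rfl

end Ops

section Seq

variable {D : Type} [MeasurableSpace D] {L : Pd (LD D) → Prop} (hL : Cl L)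

include hL

theorem Cl.len_eq (n : ℕ) (i : Fin 3) : L fun y v => len y (v i) = n :=
  hL.label {c | c.1.1 = n} ((measurable_fst.comp measurable_fst) (measurableSet_singleton n)) i i

theorem Cl.len_gt (n : ℕ) (i : Fin 3) : L fun y v => n < len y (v i) :=
  hL.label {c | n < c.1.1} ((measurable_fst.comp measurable_fst) (MeasurableSet.of_discrete
    (s := {m | n < m}))) i i

theorem Cl.lab_mem {A : Set D} (hA : MeasurableSet A) (i : Fin 3) :
    L fun y v => lab y (v i) ∈ A :=
  hL.label {c | c.1.2 ∈ A} ((measurable_snd.comp measurable_fst) hA) i i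

theorem Cl.en (a : ℕ) (i j : Fin 3) : L fun y v => En y a (v i) (v j) := by
  have h0 : Measurable fun c : LD D => c.2 a :=
    (measurable_pi_apply (X := fun _ : ℕ => Bool) a).comp measurable_snd
  have h1 : L fun y v => (y ![v i, v j]).2 a = true :=
    hL.label {c | c.2 a = true} (h0 (measurableSet_singleton true)) i j
  exact hL.or (hL.and (hL.equal i j) (hL.and (hL.len_eq 1 i) (hL.cst (a = 0))))
    (hL.and (hL.not _ (hL.equal i j)) h1)

/-- a common entry -/
theorem Cl.com {i j k : Fin 3} (hi : k ≠ i) (hj : k ≠ j) (a a' : ℕ) :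
    L fun y v => ∃ u, En y a u (v i) ∧ En y a' u (v j) := by
  refine hL.congr (hL.ex k _ (hL.and (hL.en a k i) (hL.en a' k j))) fun y v => ?_
  refine exists_congr fun u => ?_
  rw [Function.update_self, Function.update_of_ne hi.symm, Function.update_of_ne hj.symm]

theorem Cl.pf {i j k : Fin 3} (hi : k ≠ i) (hj : k ≠ j) :
    L fun y v => Pf y (v i) (v j) := by
  refine hL.exn fun n => hL.and (hL.len_eq n i) (hL.and ?_ (hL.conj _ fun a =>
    hL.imp (hL.cst (a < n)) (hL.com hi hj a a)))
  refine hL.congr (hL.conj _ fun m => hL.imp (hL.cst (m < n)) (hL.len_gt m j)) fun y v => ?_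
  constructor
  · intro h
    by_contra h1
    exact lt_irrefl _ (h _ (not_le.1 h1))
  · intro h m hm
    exact lt_of_lt_of_le hm h

theorem Cl.nd {j k : Fin 3} (hj : k ≠ j) : L fun y v => Nd y (v j) :=
  hL.conj _ fun a => hL.conj _ fun b => hL.imp (hL.cst (a < b)) (hL.imp (hL.len_gt b j)
    (hL.not _ (hL.com hj hj a b)))

theorem Cl.rl {i j k : Fin 3} (hi : k ≠ i) (hj : k ≠ j) (l : List ℕ) :
    L fun y v => Rl y l (v i) (v j) :=
  hL.and (hL.len_eq l.length i) (hL.conj _ fun a => hL.imp (hL.cst (a < l.length))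
    (hL.com hi hj a (ent l a)))

theorem others (i : Fin 3) : ∃ j k : Fin 3, j ≠ i ∧ k ≠ i ∧ k ≠ j := by
  fin_cases i
  · exact ⟨1, 2, by decide, by decide, by decide⟩
  · exact ⟨0, 2, by decide, by decide, by decide⟩
  · exact ⟨0, 1, by decide, by decide, by decide⟩

theorem Cl.fo (b : Code D) : ∀ i : Fin 3, L fun y v => Fo y b (v i) := by
  induction b with
  | atom l A hA =>
    intro i
    obtain ⟨j, k, hji, hki, hkj⟩ := others hL i
    have h1 : L fun y v => ∀ r, Rl y l r (v j) → lab y r ∈ A := by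
      refine hL.congr (hL.all i (hL.imp (hL.rl hki hkj l) (hL.lab_mem hA i))) fun y v => ?_
      refine forall_congr' fun r => ?_
      rw [Function.update_self, Function.update_of_ne hji]
    have h2 : L fun y v => ∀ a ∈ l, a < len y (v j) :=
      hL.conj _ fun a => hL.imp (hL.cst (a ∈ l)) (hL.len_gt a j)
    refine hL.congr (hL.all j (hL.imp (hL.pf hki hkj) (hL.imp (hL.nd hkj) (hL.imp h2 h1))))
      fun y v => ?_
    refine forall_congr' fun t => ?_
    rw [Function.update_self, Function.update_of_ne hji.symm]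
  | compl b ih =>
    intro i
    obtain ⟨j, k, hji, hki, hkj⟩ := others hL i
    refine hL.congr (hL.all j (hL.imp (hL.pf hki hkj) (hL.imp (hL.nd hkj)
      (hL.not _ (ih j))))) fun y v => ?_
    refine forall_congr' fun t => ?_
    rw [Function.update_self, Function.update_of_ne hji.symm]
  | inter b ih =>
    intro i
    exact hL.conj _ fun n => ih n i

theorem Cl.ax [MeasurableSingletonClass D] (d0 : D) : L fun y _ => Ax d0 y := by
  have a1 : L fun y _ => ∀ s, (y ![s, s]).2 = fun _ => false := by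
    refine hL.congr (hL.all 0 (hL.label {c | c.2 = fun _ => false}
      (measurable_snd (measurableSet_singleton _)) 0 0)) fun y v => ?_
    refine forall_congr' fun s => ?_
    rw [Function.update_self]
    exact Iff.rfl
  have a2 : L fun y _ => ∀ s t, s ≠ t → (y ![s, t]).1 = (0, d0) := by
    refine hL.congr (hL.all 0 (hL.all 1 (hL.imp (hL.not _ (hL.equal 0 1))
      (hL.label {c | c.1 = (0, d0)} (measurable_fst (measurableSet_singleton _)) 0 1))))
      fun y v => ?_
    refine forall_congr' fun s => forall_congr' fun t => ?_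
    rw [Function.update_self, Function.update_of_ne (by decide), Function.update_self]
    exact Iff.rfl
  have a3 : L fun y _ => ∀ i s t, En y i s t → len y s = 1 ∧ i < len y t := by
    refine hL.congr (hL.conj _ fun i => hL.all 0 (hL.all 1 (hL.imp (hL.en i 0 1)
      (hL.and (hL.len_eq 1 0) (hL.len_gt i 1))))) fun y v => ?_
    refine forall_congr' fun i => forall_congr' fun s => forall_congr' fun t => ?_
    rw [Function.update_self, Function.update_of_ne (by decide), Function.update_self]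
  have a4 : L fun y _ => ∀ i t, i < len y t → ∃ s, En y i s t := by
    refine hL.congr (hL.conj _ fun i => hL.all 0 (hL.imp (hL.len_gt i 0)
      (hL.ex 1 _ (hL.en i 1 0)))) fun y v => ?_
    refine forall_congr' fun i => forall_congr' fun t => ?_
    simp only [Function.update_self]
    refine imp_congr_right fun _ => exists_congr fun s => ?_
    rw [Function.update_of_ne (by decide), Function.update_self]
  have a5 : L fun y _ => ∀ i s s' t, En y i s t → En y i s' t → s = s' := by
    refine hL.congr (hL.conj _ fun i => hL.all 0 (hL.all 1 (hL.all 2 (hL.imp (hL.en i 0 2)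
      (hL.imp (hL.en i 1 2) (hL.equal 0 1)))))) fun y v => ?_
    refine forall_congr' fun i => forall_congr' fun s => forall_congr' fun s' =>
      forall_congr' fun t => ?_
    rw [Function.update_self, Function.update_of_ne (by decide), Function.update_of_ne (by decide),
      Function.update_self, Function.update_of_ne (by decide), Function.update_self]
  have a6 : L fun y _ => ∀ t t', len y t = len y t' →
      (∀ i, i < len y t → ∃ u, En y i u t ∧ En y i u t') → t = t' := by
    have h1 : L fun y v => len y (v 0) = len y (v 1) := by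
      refine hL.congr (hL.exn fun n => hL.and (hL.len_eq n 0) (hL.len_eq n 1)) fun y v => ?_
      exact ⟨fun ⟨n, h1, h2⟩ => h1.trans h2.symm, fun h => ⟨_, h, rfl⟩⟩
    refine hL.congr (hL.all 0 (hL.all 1 (hL.imp h1 (hL.imp (hL.conj _ fun i =>
      hL.imp (hL.len_gt i 0) (hL.com (i := 0) (j := 1) (k := 2) (by decide) (by decide) i i))
      (hL.equal 0 1))))) fun y v => ?_
    refine forall_congr' fun t => forall_congr' fun t' => ?_
    rw [Function.update_self, Function.update_of_ne (by decide), Function.update_self]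
  have a7 : L fun y _ => ∃ t, len y t = 0 := by
    refine hL.congr (hL.ex 0 _ (hL.len_eq 0 0)) fun y v => ?_
    refine exists_congr fun t => ?_
    rw [Function.update_self]
  have a8 : L fun y _ => ∀ n t u, len y t = n → len y u = 1 → ∃ t', len y t' = n + 1 ∧
      En y n u t' ∧ ∀ i, i < n → ∃ w, En y i w t ∧ En y i w t' := by
    refine hL.congr (hL.conj _ fun n => hL.all 0 (hL.all 1 (hL.imp (hL.len_eq n 0)
      (hL.imp (hL.len_eq 1 1) (hL.ex 2 _ (hL.and (hL.len_eq (n + 1) 2) (hL.and (hL.en n 1 2)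
      (hL.conj _ fun i => hL.imp (hL.cst (i < n))
        (hL.com (i := 0) (j := 2) (k := 1) (by decide) (by decide) i i))))))))) fun y v => ?_
    refine forall_congr' fun n => forall_congr' fun t => forall_congr' fun u => ?_
    rw [Function.update_self, Function.update_of_ne (by decide), Function.update_self]
    refine imp_congr_right fun _ => imp_congr_right fun _ => exists_congr fun t' => ?_
    rw [Function.update_self, Function.update_of_ne (by decide), Function.update_self,
      Function.update_of_ne (by decide), Function.update_of_ne (by decide), Function.update_self]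
  have a9 : L fun y _ => ∀ n, ∃ t, len y t = n ∧ ∀ i j, i < j → j < n →
      ¬ ∃ u, En y i u t ∧ En y j u t := by
    refine hL.congr (hL.conj _ fun n => hL.ex 0 _ (hL.and (hL.len_eq n 0) (hL.conj _ fun i =>
      hL.conj _ fun j => hL.imp (hL.cst (i < j)) (hL.imp (hL.cst (j < n))
      (hL.not _ (hL.com (i := 0) (j := 0) (k := 1) (by decide) (by decide) i j))))))
      fun y v => ?_
    refine forall_congr' fun n => exists_congr fun t => ?_
    rw [Function.update_self]
  refine hL.congr (hL.and a1 (hL.and a2 (hL.and a3 (hL.and a4 (hL.and a5 (hL.and a6 (hL.and a7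
    (hL.and a8 a9)))))))) fun y _ => ?_
  exact ⟨fun ⟨b1, b2, b3, b4, b5, b6, b7, b8, b9⟩ => ⟨b1, b2, b3, b4, b5, b6, b7, b8, b9⟩,
    fun h => ⟨h.diag, h.off, h.en1, h.ex, h.un, h.inj, h.nil, h.cons, h.inf⟩⟩

/-- the class of the structures of sequences of members of the coded set -/
def Mo (d0 : D) (b : Code D) : Set (Str D) :=
  {y | Ax d0 y ∧ ∃ s, len y s = 0 ∧ Fo y b s}

theorem Cl.mo [MeasurableSingletonClass D] (d0 : D) (b : Code D) : L fun y _ => y ∈ Mo d0 b := by
  refine hL.and (hL.ax d0) ?_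
  refine hL.congr (hL.ex 0 _ (hL.and (hL.len_eq 0 0) (hL.fo b 0))) fun y v => ?_
  refine exists_congr fun s => ?_
  rw [Function.update_self]

end Seq

section Main

variable {D : Type} [MeasurableSpace D]

theorem fo_iso {y y' : Str D} {g : Equiv.Perm ℕ} (hg : ∀ v : Fin 2 → ℕ, y' (g ∘ v) = y v)
    (b : Code D) : ∀ s, Fo y' b (g s) ↔ Fo y b s := by
  have hcom : ∀ a a' s t, (∃ u, En y' a u (g s) ∧ En y' a' u (g t)) ↔
      ∃ u, En y a u s ∧ En y a' u t := by
    intro a a' s t
    constructor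
    · rintro ⟨u, h1, h2⟩
      rw [← g.apply_symm_apply u] at h1 h2
      exact ⟨g.symm u, (en_iso hg _ _ _).1 h1, (en_iso hg _ _ _).1 h2⟩
    · rintro ⟨u, h1, h2⟩
      exact ⟨g u, (en_iso hg _ _ _).2 h1, (en_iso hg _ _ _).2 h2⟩
  have hpf : ∀ s t, Pf y' (g s) (g t) ↔ Pf y s t := by
    intro s t
    unfold Pf
    rw [len_iso hg, len_iso hg]
    simp only [hcom]
  have hnd : ∀ t, Nd y' (g t) ↔ Nd y t := by
    intro t
    unfold Nd
    rw [len_iso hg]
    simp only [hcom]
  have hrl : ∀ l r t, Rl y' l (g r) (g t) ↔ Rl y l r t := by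
    intro l r t
    unfold Rl
    rw [len_iso hg]
    simp only [hcom]
  induction b with
  | atom l A hA =>
    intro s
    constructor
    · intro h t h1 h2 h3 r h4
      rw [← lab_iso hg]
      exact h (g t) ((hpf _ _).2 h1) ((hnd _).2 h2) (fun i hi => by
        rw [len_iso hg]
        exact h3 i hi) (g r) ((hrl _ _ _).2 h4)
    · intro h t h1 h2 h3 r h4
      rw [← g.apply_symm_apply t] at h1 h2 h4
      rw [← g.apply_symm_apply r] at h4 ⊢
      rw [lab_iso hg]
      refine h (g.symm t) ((hpf _ _).1 h1) ((hnd _).1 h2) (fun i hi => ?_) (g.symm r)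
        ((hrl _ _ _).1 h4)
      rw [← len_iso hg, g.apply_symm_apply]
      exact h3 i hi
  | compl b ih =>
    intro s
    constructor
    · intro h t h1 h2 h3
      exact h (g t) ((hpf _ _).2 h1) ((hnd _).2 h2) ((ih _).2 h3)
    · intro h t h1 h2 h3
      rw [← g.apply_symm_apply t] at h1 h2 h3
      exact h (g.symm t) ((hpf _ _).1 h1) ((hnd _).1 h2) ((ih _).1 h3)
  | inter b ih => exact fun s => forall_congr' fun n => ih n s

theorem isoL_symm {x x' : List ℕ → D} (h : IsoL x x') : IsoL x' x := by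
  obtain ⟨g, hg⟩ := h
  refine ⟨g.symm, fun l => ?_⟩
  rw [← hg, List.map_map]
  congr 1
  exact (List.map_congr_left fun a _ => g.apply_symm_apply a).trans (List.map_id l)

theorem isoS_symm {y y' : Str D} (h : IsoS y y') : IsoS y' y := by
  obtain ⟨g, hg⟩ := h
  refine ⟨g.symm, fun v => ?_⟩
  rw [← hg]
  congr 1
  funext i
  exact g.apply_symm_apply _

theorem isoS_trans {y y' y'' : Str D} (h : IsoS y y') (h' : IsoS y' y'') : IsoS y y'' := by
  obtain ⟨g, hg⟩ := h
  obtain ⟨g', hg'⟩ := h'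
  exact ⟨g.trans g', fun v => by rw [← hg, ← hg']; rfl⟩

variable {d0 : D} {b : Code D}

theorem mo_yx (hinv : ∀ x ∈ eval b, ∀ x', IsoL x x' → x' ∈ eval b) (x : List ℕ → D) :
    yx d0 x ∈ Mo d0 b ↔ x ∈ eval b := by
  have h1 : ∀ g : Equiv.Perm ℕ, (fun l : List ℕ => x (l.map g)) ∈ eval b ↔ x ∈ eval b := by
    intro g
    have h2 : IsoL (fun l : List ℕ => x (l.map g)) x := ⟨g, fun l => rfl⟩
    exact ⟨fun h => hinv _ h _ h2, fun h => hinv _ h _ (isoL_symm h2)⟩
  rw [inv_iff h1]
  constructor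
  · rintro ⟨_, s, h2, h3⟩
    rw [fo_yx] at h3
    rw [len_yx] at h2
    rw [List.length_eq_zero_iff.1 h2] at h3
    exact h3
  · intro h
    refine ⟨ax_yx, E.symm [], ?_, ?_⟩
    · rw [len_yx, E.apply_symm_apply]
      rfl
    · rw [fo_yx, E.apply_symm_apply]
      exact h

theorem mo_iso {y y' : Str D} (h : IsoS y y') (hy : Ax d0 y') (hm : y ∈ Mo d0 b) :
    y' ∈ Mo d0 b := by
  obtain ⟨g, hg⟩ := h
  obtain ⟨_, s, h2, h3⟩ := hm
  exact ⟨hy, g s, by rw [len_iso hg, h2], (fo_iso hg b s).2 h3⟩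

/-- the decoded structure of a member of the class -/
theorem mo_xy (hinv : ∀ x ∈ eval b, ∀ x', IsoL x x' → x' ∈ eval b) {y : Str D}
    (hy : y ∈ Mo d0 b) : xy d0 y ∈ eval b := by
  rw [← mo_yx (d0 := d0) hinv]
  exact mo_iso (isoS_symm (iso_xy hy.1)) ax_yx hy

/-- countably many types -/
theorem ctb_iff (hinv : ∀ x ∈ eval b, ∀ x', IsoL x x' → x' ∈ eval b) :
    (∃ S : Set (Str D), S.Countable ∧ ∀ y ∈ Mo d0 b, ∃ z ∈ S, IsoS y z) ↔
      ∃ S : Set (List ℕ → D), S.Countable ∧ ∀ x ∈ eval b, ∃ z ∈ S, IsoL x z := by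
  constructor
  · rintro ⟨S, hS, h⟩
    classical
    have h2 : ∀ z : Str D, ∃ x : List ℕ → D, (∃ x', IsoS (yx d0 x') z) → IsoS (yx d0 x) z := by
      intro z
      by_cases hz : ∃ x', IsoS (yx d0 x') z
      · obtain ⟨x', hx'⟩ := hz
        exact ⟨x', fun _ => hx'⟩
      · exact ⟨fun _ => d0, fun h => absurd h hz⟩
    choose f hf using h2
    refine ⟨f '' S, hS.image _, fun x hx => ?_⟩
    obtain ⟨z, hz, h1⟩ := h _ ((mo_yx hinv x).2 hx)
    exact ⟨f z, ⟨z, hz, rfl⟩, isoL_of_isoS (isoS_trans h1 (isoS_symm (hf z ⟨x, h1⟩)))⟩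
  · rintro ⟨S, hS, h⟩
    refine ⟨yx d0 '' S, hS.image _, fun y hy => ?_⟩
    obtain ⟨z, hz, h1⟩ := h _ (mo_xy hinv hy)
    exact ⟨_, ⟨z, hz, rfl⟩, isoS_trans (isoS_symm (iso_xy hy.1)) (isoS_of_isoL h1)⟩

/-- perfectly many types -/
theorem perf_iff (hinv : ∀ x ∈ eval b, ∀ x', IsoL x x' → x' ∈ eval b) :
    (∃ F : (ℕ → Bool) → Str D, Measurable F ∧ (∀ u, F u ∈ Mo d0 b) ∧
      ∀ u w, u ≠ w → ¬ IsoS (F u) (F w)) ↔
      ∃ F : (ℕ → Bool) → (List ℕ → D), Measurable F ∧ (∀ u, F u ∈ eval b) ∧
        ∀ u w, u ≠ w → ¬ IsoL (F u) (F w) := by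
  constructor
  · rintro ⟨F, hF, h1, h2⟩
    refine ⟨fun u => xy d0 (F u), meas_xy hF fun u => (h1 u).1, fun u => mo_xy hinv (h1 u),
      fun u w huw h => h2 u w huw ?_⟩
    exact isoS_trans (isoS_symm (iso_xy (h1 u).1)) (isoS_trans (isoS_of_isoL h)
      (iso_xy (h1 w).1))
  · rintro ⟨F, hF, h1, h2⟩
    exact ⟨fun u => yx d0 (F u), meas_yx.comp hF, fun u => (mo_yx hinv _).2 (h1 u),
      fun u w huw h => h2 u w huw (isoL_of_isoS h)⟩

end Main

/-- **Three variables are enough.** -/
theorem three {D : Type} [MeasurableSpace D] [MeasurableSingletonClass D]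
    (X : Set (List ℕ → D)) (hX : MeasurableSet X) (hinv : ∀ x ∈ X, ∀ x', IsoL x x' → x' ∈ X)
    (L : Pd (LD D) → Prop) (hL : Cl L) :
    ∃ Y : Set (Str D), (L fun y _ => y ∈ Y) ∧
      ((∃ S : Set (Str D), S.Countable ∧ ∀ y ∈ Y, ∃ z ∈ S, IsoS y z) ↔
        ∃ S : Set (List ℕ → D), S.Countable ∧ ∀ x ∈ X, ∃ z ∈ S, IsoL x z) ∧
      ((∃ F : (ℕ → Bool) → Str D, Measurable F ∧ (∀ u, F u ∈ Y) ∧
          ∀ u w, u ≠ w → ¬ IsoS (F u) (F w)) ↔
        ∃ F : (ℕ → Bool) → (List ℕ → D), Measurable F ∧ (∀ u, F u ∈ X) ∧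
          ∀ u w, u ≠ w → ¬ IsoL (F u) (F w)) := by
  rcases X.eq_empty_or_nonempty with rfl | ⟨x0, hx0⟩
  · refine ⟨∅, hL.congr (hL.cst False) fun y v => Iff.rfl, ?_, ?_⟩
    · exact ⟨fun _ => ⟨∅, countable_empty, fun x hx => absurd hx (notMem_empty x)⟩,
        fun _ => ⟨∅, countable_empty, fun x hx => absurd hx (notMem_empty x)⟩⟩
    · exact ⟨fun ⟨F, _, h, _⟩ => absurd (h fun _ => true) (notMem_empty _),
        fun ⟨F, _, h, _⟩ => absurd (h fun _ => true) (notMem_empty _)⟩
  · obtain ⟨b, rfl⟩ := exists_code hX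
    exact ⟨Mo (x0 []) b, hL.mo (x0 []) b, ctb_iff hinv, perf_iff hinv⟩

end Pool.Agent.H71.NV
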